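import Pool.Agent.R515.SH.Poly

/-!
The barrier and the behaviour at the end.
-/

set_option autoImplicit false

namespace Pool.Agent.R515.SH

open Filter Topology Set Polynomial ComplexConjugate

/-- values of the quartic and of its derivative -/
noncomputable def Pv (w : ℂ) : ℂ := w ^ 4 - 14 * w ^ 2 + 24 * w + 4224
noncomputable def Dv (w : ℂ) : ℂ := 4 * w ^ 3 - 28 * w + 24

lemma pol_pos {s : ℝ} (hs : 0 < s) :
    0 < 680573312000 * s ^ 2 + 12436581785600 * s ^ 3 + 77224053107200 * s ^ 4 +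
      200670741504000 * s ^ 5 + 229592984696000 * s ^ 6 + 104553751232000 * s ^ 7 +
      15439206334400 * s ^ 8 - 263454707200 * s ^ 9 + 98678286000 * s ^ 10 +
      40358800000 * s ^ 11 - 341900000 * s ^ 12 - 54000000 * s ^ 13 + 23750000 * s ^ 14 := by
  have h1 : 0 < 15439206334400 - 263454707200 * s + 98678286000 * s ^ 2 := by
    nlinarith [sq_nonneg (s - 1)]
  have h2 : 0 < 40358800000 - 341900000 * s - 54000000 * s ^ 2 + 23750000 * s ^ 3 := by
    rcases le_total s 5 with h | h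
    · nlinarith [pow_pos hs 3, pow_pos hs 2]
    · nlinarith [mul_nonneg (sub_nonneg.mpr h) (sq_nonneg s), pow_pos hs 2]
  have h3 := mul_pos (pow_pos hs 8) h1
  have h4 := mul_pos (pow_pos hs 11) h2
  have h5 : 0 < 680573312000 * s ^ 2 + 12436581785600 * s ^ 3 + 77224053107200 * s ^ 4 +
      200670741504000 * s ^ 5 + 229592984696000 * s ^ 6 + 104553751232000 * s ^ 7 := by positivity
  nlinarith

lemma barrier {z0 : ℂ} (h1 : ‖z0 - 1‖ < 1 / 10) (h2 : 0 < z0.im) {α : ℝ} (ha0 : 0 < α) {w : ℂ}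
    (hw1 : 0 ≤ w.im) (hw2 : w.re - 2 ≤ 2 * w.im) (hF : (α : ℂ) * Pv w = (w - z0) * Dv w) :
    0 < w.im ∧ w.re - 2 < 2 * w.im := by
  rcases hw1.lt_or_eq with him | him
  · refine ⟨him, lt_of_le_of_ne hw2 ?_⟩
    intro heq
    obtain ⟨s, hs⟩ : ∃ s, s = w.im := ⟨_, rfl⟩
    rw [← hs] at him heq
    have hre : w.re = 2 + 2 * s := by linarith
    have hX : (w - 1) * Dv w * conj (Pv w) = (α : ℂ) * (Complex.normSq (Pv w) : ℂ) +
        (z0 - 1) * Dv w * conj (Pv w) := by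
      rw [Complex.normSq_eq_conj_mul_self]
      linear_combination (-conj (Pv w)) * hF
    have hXim : ((w - 1) * Dv w * conj (Pv w)).im = ((z0 - 1) * Dv w * conj (Pv w)).im := by
      rw [hX, Complex.add_im, ← Complex.ofReal_mul, Complex.ofReal_im, zero_add]
    have hle : |((w - 1) * Dv w * conj (Pv w)).im| ≤ 1 / 10 * (‖Dv w‖ * ‖Pv w‖) := by
      rw [hXim]
      refine (Complex.abs_im_le_norm _).trans ?_
      rw [norm_mul, norm_mul, Complex.norm_conj, mul_assoc]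
      exact mul_le_mul_of_nonneg_right h1.le (by positivity)
    have hsq : ((w - 1) * Dv w * conj (Pv w)).im ^ 2 ≤
        1 / 100 * (Complex.normSq (Dv w) * Complex.normSq (Pv w)) := by
      rw [← sq_abs, Complex.normSq_eq_norm_sq, Complex.normSq_eq_norm_sq]
      calc |((w - 1) * Dv w * conj (Pv w)).im| ^ 2 ≤ (1 / 10 * (‖Dv w‖ * ‖Pv w‖)) ^ 2 := by
            gcongr
        _ = _ := by ring
    have hw : w = ⟨2 + 2 * s, s⟩ := by
      apply Complex.ext
      · exact hre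
      · exact hs.symm
    have hP : Pv w = ⟨4232 + 30 * s ^ 2 + 16 * s ^ 3 - 7 * s ^ 4,
        40 * s ^ 2 + 88 * s ^ 3 + 24 * s ^ 4⟩ := by
      rw [hw]
      unfold Pv
      apply Complex.ext
      · simp [pow_succ, Complex.mul_re, Complex.mul_im]; ring
      · simp [pow_succ, Complex.mul_re, Complex.mul_im]; ring
    have hD : Dv w = ⟨4 * (10 * s + 18 * s ^ 2 + 2 * s ^ 3),
        4 * (5 * s + 24 * s ^ 2 + 11 * s ^ 3)⟩ := by
      rw [hw]
      unfold Dv
      apply Complex.ext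
      · simp [pow_succ, Complex.mul_re, Complex.mul_im]; ring
      · simp [pow_succ, Complex.mul_re, Complex.mul_im]; ring
    rw [hP, hD, hw] at hsq
    simp only [Complex.mul_im, Complex.mul_re, Complex.sub_re, Complex.sub_im, Complex.one_re,
      Complex.one_im, Complex.conj_re, Complex.conj_im, Complex.normSq_mk] at hsq
    have := pol_pos him
    nlinarith
  · exfalso
    obtain ⟨t, ht⟩ : ∃ t, t = w.re := ⟨_, rfl⟩
    have hw : w = (t : ℂ) := by
      apply Complex.ext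
      · simp [ht]
      · simp [← him]
    have hP : Pv w = ((t ^ 4 - 14 * t ^ 2 + 24 * t + 4224 : ℝ) : ℂ) := by
      rw [hw]; unfold Pv; push_cast; ring
    have hD : Dv w = ((4 * t ^ 3 - 28 * t + 24 : ℝ) : ℂ) := by
      rw [hw]; unfold Dv; push_cast; ring
    rw [hP, hD, hw] at hF
    have h3 := congrArg Complex.im hF
    have h4 := congrArg Complex.re hF
    simp only [← Complex.ofReal_mul, Complex.ofReal_im, Complex.mul_im, Complex.sub_re,
      Complex.sub_im, Complex.ofReal_re, Complex.mul_re] at h3 h4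
    have h5 : (4 * t ^ 3 - 28 * t + 24 : ℝ) = 0 := by
      have : z0.im * (4 * t ^ 3 - 28 * t + 24) = 0 := by linarith
      rcases mul_eq_zero.mp this with h | h
      · exact absurd h h2.ne'
      · exact h
    rw [h5] at h4
    have h6 : t ^ 4 - 14 * t ^ 2 + 24 * t + 4224 = 0 := by
      have : α * (t ^ 4 - 14 * t ^ 2 + 24 * t + 4224) = 0 := by linarith
      rcases mul_eq_zero.mp this with h | h
      · exact absurd h ha0.ne'
      · exact h
    nlinarith [sq_nonneg (t ^ 2 - 8), sq_nonneg (t + 6)]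

/-- the limit equation in terms of `w` -/
lemma G_iff {z0 : ℂ} {α : ℝ} {x : ℂ} (hx : x ≠ 0)
    (hG : G (c0 z0) (c1 z0) (c2 z0) (c3 z0) α x = 0) :
    (α : ℂ) * Pv (z0 + α / x) = (z0 + α / x - z0) * Dv (z0 + α / x) := by
  have h1 : (α : ℂ) * Pv (z0 + α / x) - (z0 + α / x - z0) * Dv (z0 + α / x) =
      α * G (c0 z0) (c1 z0) (c2 z0) (c3 z0) α x / x ^ 4 := by
    unfold Pv Dv G c0 c1 c2 c3
    field_simp
    ring
  rw [hG, mul_zero, zero_div] at h1
  exact sub_eq_zero.mp h1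

/-- the end of the path is outside -/
lemma hend {z0 : ℂ} (h1 : ‖z0 - 1‖ < 1 / 10) {r : ℝ} (hr : 0 < r) :
    ∃ d : ℝ, 0 < d ∧ d < 1 ∧ ∀ x : ℂ, x ≠ 0 → ‖x‖ ≤ d / r →
      G (c0 z0) (c1 z0) (c2 z0) (c3 z0) (4 - d) x = 0 →
      ¬ ((z0 + ((4 - d : ℝ) : ℂ) / x).re - 2 ≤ 2 * (z0 + ((4 - d : ℝ) : ℂ) / x).im) := by
  by_contra hcon
  push Not at hcon
  have hd : ∀ k : ℕ, (0 : ℝ) < 1 / ((k : ℝ) + 2) := fun k => by positivity
  have hd1 : ∀ k : ℕ, 1 / ((k : ℝ) + 2) < 1 := by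
    intro k
    rw [div_lt_one (by positivity)]
    have : (0 : ℝ) ≤ k := Nat.cast_nonneg k
    linarith
  choose x hx0 hxb hxG hxo using fun k : ℕ => hcon (1 / ((k : ℝ) + 2)) (hd k) (hd1 k)
  set d : ℕ → ℝ := fun k => 1 / ((k : ℝ) + 2) with hdd
  have hdlim : Tendsto d atTop (𝓝 0) := by
    have h2 : Tendsto (fun k : ℕ => ((k : ℝ) + 2)) atTop atTop :=
      tendsto_atTop_add_const_right _ _ tendsto_natCast_atTop_atTop
    exact h2.const_div_atTop 1
  have hdpos : ∀ k, 0 < d k := hd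
  have hball : ∀ k, x k / d k ∈ Metric.closedBall (0 : ℂ) (1 / r) := by
    intro k
    rw [mem_closedBall_zero_iff, norm_div, Complex.norm_real, Real.norm_of_nonneg (hdpos k).le,
      div_le_iff₀ (hdpos k)]
    refine (hxb k).trans (le_of_eq ?_)
    ring
  obtain ⟨y, -, φ, hφ, hy⟩ := (isCompact_closedBall (0 : ℂ) (1 / r)).tendsto_subseq hball
  have hdl : Tendsto (fun k => (d (φ k) : ℂ)) atTop (𝓝 0) := by
    have := (Complex.continuous_ofReal.tendsto 0).comp (hdlim.comp hφ.tendsto_atTop)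
    rw [Complex.ofReal_zero] at this
    exact this
  have hy' : Tendsto (fun k => x (φ k) / d (φ k)) atTop (𝓝 y) := hy
  have hlim : Tendsto (fun k => c0 z0 * ((d (φ k) : ℂ) ^ 3 * (x (φ k) / d (φ k)) ^ 4) +
      c1 z0 * (3 - (d (φ k) : ℂ)) * ((d (φ k) : ℂ) ^ 2 * (x (φ k) / d (φ k)) ^ 3) +
      c2 z0 * (2 - (d (φ k) : ℂ)) * (4 - (d (φ k) : ℂ)) *
        ((d (φ k) : ℂ) * (x (φ k) / d (φ k)) ^ 2) +
      c3 z0 * (1 - (d (φ k) : ℂ)) * (4 - (d (φ k) : ℂ)) ^ 2 * (x (φ k) / d (φ k)) -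
      (4 - (d (φ k) : ℂ)) ^ 3) atTop
      (𝓝 (c0 z0 * ((0 : ℂ) ^ 3 * y ^ 4) +
      c1 z0 * (3 - (0 : ℂ)) * ((0 : ℂ) ^ 2 * y ^ 3) +
      c2 z0 * (2 - (0 : ℂ)) * (4 - (0 : ℂ)) * ((0 : ℂ) * y ^ 2) +
      c3 z0 * (1 - (0 : ℂ)) * (4 - (0 : ℂ)) ^ 2 * y -
      (4 - (0 : ℂ)) ^ 3)) := by
    refine Tendsto.sub (Tendsto.add (Tendsto.add (Tendsto.add ?_ ?_) ?_) ?_) ?_
    · exact ((hdl.pow 3).mul (hy'.pow 4)).const_mul _
    · exact ((hdl.const_sub 3).const_mul _).mul ((hdl.pow 2).mul (hy'.pow 3))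
    · exact (((hdl.const_sub 2).const_mul _).mul (hdl.const_sub 4)).mul (hdl.mul (hy'.pow 2))
    · exact (((hdl.const_sub 1).const_mul _).mul ((hdl.const_sub 4).pow 2)).mul hy'
    · exact (hdl.const_sub 4).pow 3
  have hzero : ∀ k, c0 z0 * ((d (φ k) : ℂ) ^ 3 * (x (φ k) / d (φ k)) ^ 4) +
      c1 z0 * (3 - (d (φ k) : ℂ)) * ((d (φ k) : ℂ) ^ 2 * (x (φ k) / d (φ k)) ^ 3) +
      c2 z0 * (2 - (d (φ k) : ℂ)) * (4 - (d (φ k) : ℂ)) *
        ((d (φ k) : ℂ) * (x (φ k) / d (φ k)) ^ 2) +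
      c3 z0 * (1 - (d (φ k) : ℂ)) * (4 - (d (φ k) : ℂ)) ^ 2 * (x (φ k) / d (φ k)) -
      (4 - (d (φ k) : ℂ)) ^ 3 = 0 := by
    intro k
    have h2 := hxG (φ k)
    have hdk : (d (φ k) : ℂ) ≠ 0 := by exact_mod_cast (hdpos (φ k)).ne'
    change G (c0 z0) (c1 z0) (c2 z0) (c3 z0) (4 - d (φ k)) (x (φ k)) = 0 at h2
    generalize d (φ k) = δ at *
    generalize x (φ k) = u at *
    unfold G at h2
    push_cast at h2
    field_simp
    linear_combination h2
  have hlim0 := tendsto_nhds_unique hlim (tendsto_const_nhds.congr (fun k => (hzero k).symm))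
  have hzy : z0 * y = 1 := by
    unfold c3 at hlim0
    have : (64 : ℂ) * (z0 * y - 1) = 0 := by linear_combination hlim0
    rcases mul_eq_zero.mp this with h | h
    · norm_num at h
    · exact sub_eq_zero.mp h
  have hy0 : y ≠ 0 := by rintro rfl; simp at hzy
  have hW : Tendsto (fun k => (d (φ k) : ℂ) * z0 + (4 - (d (φ k) : ℂ)) / (x (φ k) / d (φ k))) atTop
      (𝓝 (0 * z0 + (4 - 0) / y)) :=
    (hdl.mul_const z0).add ((hdl.const_sub 4).div hy' hy0)
  have hWe : ∀ k, (d (φ k) : ℂ) * z0 + (4 - (d (φ k) : ℂ)) / (x (φ k) / d (φ k)) =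
      (d (φ k) : ℂ) * (z0 + ((4 - d (φ k) : ℝ) : ℂ) / x (φ k)) := by
    intro k
    have hdk : (d (φ k) : ℂ) ≠ 0 := by exact_mod_cast (hdpos (φ k)).ne'
    have hxk := hx0 (φ k)
    push_cast
    field_simp
  have hl : (0 * z0 + (4 - 0) / y) = 4 * z0 := by
    field_simp
    linear_combination (-4 : ℂ) * hzy
  rw [hl] at hW
  have hre := (Complex.continuous_re.tendsto _).comp hW
  have him := (Complex.continuous_im.tendsto _).comp hW
  have hdR : Tendsto (fun k => 2 * d (φ k)) atTop (𝓝 0) := by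
    simpa using (hdlim.comp hφ.tendsto_atTop).const_mul 2
  have hineq := le_of_tendsto_of_tendsto (hre.sub hdR) (him.const_mul 2)
    (Eventually.of_forall fun k => by
      simp only [Function.comp]
      rw [hWe k]
      have h2 := hxo (φ k)
      change (z0 + ((4 - d (φ k) : ℝ) : ℂ) / x (φ k)).re - 2 ≤
        2 * (z0 + ((4 - d (φ k) : ℝ) : ℂ) / x (φ k)).im at h2
      rw [Complex.re_ofReal_mul, Complex.im_ofReal_mul]
      nlinarith [hdpos (φ k)])
  have e1 : (4 * z0).re = 4 * z0.re := by simp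
  have e2 : (4 * z0).im = 4 * z0.im := by simp
  rw [e1, e2] at hineq
  have h3 : |(z0 - 1).re| < 1 / 10 := (Complex.abs_re_le_norm _).trans_lt h1
  have h4 : |(z0 - 1).im| < 1 / 10 := (Complex.abs_im_le_norm _).trans_lt h1
  rw [Complex.sub_re, Complex.one_re, abs_lt] at h3
  rw [Complex.sub_im, Complex.one_im, abs_lt] at h4
  linarith [h3.1, h4.2]

/-- no zero free disc around points of the upper half of the disc `D(1, 1/10)` -/
theorem no_disc {z0 : ℂ} (h1 : ‖z0 - 1‖ < 1 / 10) (h2 : 0 < z0.im) {r : ℝ} (hr : 0 < r)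
    (hno : ∀ n m, 1 ≤ n → m ≤ 4 * n → ∀ z, dist z z0 < 2 * r → (Q n m).eval z ≠ 0) : False := by
  have hno0 : ∀ n m, 1 ≤ n → m ≤ 4 * n → (Q n m).eval z0 ≠ 0 := fun n m hn hm =>
    hno n m hn hm z0 (by rw [dist_self]; linarith)
  obtain ⟨d, hd0, hd1, hd⟩ := hend h1 hr
  have hre : |(z0 - 1).re| < 1 / 10 := (Complex.abs_re_le_norm _).trans_lt h1
  rw [Complex.sub_re, Complex.one_re, abs_lt] at hre
  have hcl : closure {w : ℂ | 0 < w.im ∧ w.re - 2 < 2 * w.im} ⊆
      {w : ℂ | 0 ≤ w.im ∧ w.re - 2 ≤ 2 * w.im} := by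
    apply closure_minimal
    · intro w hw
      exact ⟨hw.1.le, hw.2.le⟩
    · exact (isClosed_le continuous_const Complex.continuous_im).inter
        (isClosed_le (Complex.continuous_re.sub continuous_const)
          (continuous_const.mul Complex.continuous_im))
  refine absurd_path (p0 := c0 z0) (p1 := c1 z0) (p2 := c2 z0) (p3 := c3 z0)
    (η := hh 1 0 z0) (z0 := z0) (r := r) (K := 4 / r ^ 2) (h := fun n m => hh n m z0)
    (A := {w : ℂ | 0 < w.im ∧ w.re - 2 < 2 * w.im}) (d := d) ?_ (by positivity) hr ?_ ?_ ?_ ?_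
    ?_ ?_ ?_ hd0 hd1 ?_
  · unfold hh
    exact div_ne_zero (hno0 1 1 le_rfl (by norm_num))
      (mul_ne_zero (by simp) (hno0 1 0 le_rfl (by norm_num)))
  · intro n hn
    have hN : (n : ℂ) ≠ 0 := by
      have : n ≠ 0 := by omega
      exact_mod_cast this
    have hP0 : PP.eval z0 ≠ 0 := by
      have := hno0 1 0 le_rfl (by norm_num)
      simpa [Q] using this
    unfold hh
    simp only [Q, Function.iterate_zero, id, Function.iterate_succ, Function.comp, zero_add,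
      pow_one, Nat.cast_one, one_mul, derivative_pow, eval_mul, eval_pow,
      eval_C]
    obtain ⟨k, rfl⟩ : ∃ k, n = k + 1 := ⟨n - 1, by omega⟩
    simp only [Nat.add_sub_cancel]
    field_simp
    ring
  · intro n m hn hm
    exact hh_bound hr hno hn hm (by rw [dist_self]; exact hr.le)
  · intro n m hn hm
    exact hh_step hr hno hn (by omega)
  · intro n m hn hm
    exact hh_rec hn (fun k hk => hno0 n k hn hk) hm
  · exact (isOpen_lt continuous_const Complex.continuous_im).inter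
      (isOpen_lt (Complex.continuous_re.sub continuous_const)
        (continuous_const.mul Complex.continuous_im))
  · exact ⟨h2, by linarith [hre.2]⟩
  · intro α ha0 _ x hx hG hw
    have h3 := hcl hw
    exact barrier h1 h2 ha0 h3.1 h3.2 (G_iff hx hG)
  · intro x hx hxd hG hw
    exact hd x hx hxd hG (hcl hw).2

end Pool.Agent.R515.SH
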