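import Mathlib

/-!
The abstract limit argument for the shadow of a quartic.
-/

set_option autoImplicit false

namespace Pool.Agent.R515.SH

open Filter Topology Set

/-- the limit equation -/
noncomputable def G (p0 p1 p2 p3 : ℂ) (α : ℝ) (x : ℂ) : ℂ :=
  p0 * (x * x * x * x) + p1 * ((α : ℂ) - 1) * (x * x * x) + p2 * ((α : ℂ) - 2) * α * (x * x) +
    p3 * ((α : ℂ) - 3) * α * α * x + ((α : ℂ) - 4) * α * α * α

/-- the exact recurrence -/
def Rec (p0 p1 p2 p3 : ℂ) (h : ℕ → ℕ → ℂ) (n m : ℕ) : Prop :=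
  p0 * (h n (m + 4) * h n (m + 3) * h n (m + 2) * h n (m + 1)) +
    p1 * (((m : ℂ) + 4) / n - 1) * (h n (m + 3) * h n (m + 2) * h n (m + 1)) +
    p2 * (((m : ℂ) + 3) / n - 2) * (((m : ℂ) + 4) / n) * (h n (m + 2) * h n (m + 1)) +
    p3 * (((m : ℂ) + 2) / n - 3) * (((m : ℂ) + 3) / n) * (((m : ℂ) + 4) / n) * h n (m + 1) +
    (((m : ℂ) + 1) / n - 4) * (((m : ℂ) + 2) / n) * (((m : ℂ) + 3) / n) * (((m : ℂ) + 4) / n) = 0

variable {p0 p1 p2 p3 η z0 : ℂ} {r K : ℝ} {h : ℕ → ℕ → ℂ}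

lemma lim (H4 : ∀ n m, 1 ≤ n → m + 4 < 4 * n → Rec p0 p1 p2 p3 h n m)
    {ν μ : ℕ → ℕ} (hν : Tendsto ν atTop atTop) {α : ℝ}
    (hα : Tendsto (fun k => (μ k : ℝ) / ν k) atTop (𝓝 α)) {x : ℂ}
    (h1 : Tendsto (fun k => h (ν k) (μ k + 1)) atTop (𝓝 x))
    (h2 : Tendsto (fun k => h (ν k) (μ k + 2)) atTop (𝓝 x))
    (h3 : Tendsto (fun k => h (ν k) (μ k + 3)) atTop (𝓝 x))
    (h4 : Tendsto (fun k => h (ν k) (μ k + 4)) atTop (𝓝 x))
    (hlt : ∀ᶠ k in atTop, μ k + 4 < 4 * ν k) : G p0 p1 p2 p3 α x = 0 := by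
  have hinv : Tendsto (fun k => ((ν k : ℂ))⁻¹) atTop (𝓝 0) :=
    (tendsto_inv_atTop_nhds_zero_nat (𝕜 := ℂ)).comp hν
  have hα' : Tendsto (fun k => (μ k : ℂ) / ν k) atTop (𝓝 (α : ℂ)) := by
    have := (Complex.continuous_ofReal.tendsto α).comp hα
    refine this.congr (fun k => ?_)
    simp
  have hi : ∀ i : ℂ, Tendsto (fun k => ((μ k : ℂ) + i) / ν k) atTop (𝓝 (α : ℂ)) := by
    intro i
    have := hα'.add (hinv.const_mul i)
    simp only [mul_zero, add_zero] at this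
    refine this.congr (fun k => ?_)
    rw [add_div, div_eq_mul_inv i]
  have hmain : Tendsto (fun k => p0 * (h (ν k) (μ k + 4) * h (ν k) (μ k + 3) * h (ν k) (μ k + 2) *
        h (ν k) (μ k + 1)) +
      p1 * (((μ k : ℂ) + 4) / ν k - 1) *
        (h (ν k) (μ k + 3) * h (ν k) (μ k + 2) * h (ν k) (μ k + 1)) +
      p2 * (((μ k : ℂ) + 3) / ν k - 2) * (((μ k : ℂ) + 4) / ν k) *
        (h (ν k) (μ k + 2) * h (ν k) (μ k + 1)) +
      p3 * (((μ k : ℂ) + 2) / ν k - 3) * (((μ k : ℂ) + 3) / ν k) * (((μ k : ℂ) + 4) / ν k) *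
        h (ν k) (μ k + 1) +
      (((μ k : ℂ) + 1) / ν k - 4) * (((μ k : ℂ) + 2) / ν k) * (((μ k : ℂ) + 3) / ν k) *
        (((μ k : ℂ) + 4) / ν k)) atTop (𝓝 (G p0 p1 p2 p3 α x)) := by
    unfold G
    refine Tendsto.add (Tendsto.add (Tendsto.add (Tendsto.add ?_ ?_) ?_) ?_) ?_
    · exact (((h4.mul h3).mul h2).mul h1).const_mul _
    · exact (((hi 4).sub_const 1).const_mul p1).mul ((h3.mul h2).mul h1)
    · exact ((((hi 3).sub_const 2).const_mul p2).mul (hi 4)).mul (h2.mul h1)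
    · exact (((((hi 2).sub_const 3).const_mul p3).mul (hi 3)).mul (hi 4)).mul h1
    · exact ((((hi 1).sub_const 4).mul (hi 2)).mul (hi 3)).mul (hi 4)
  refine tendsto_nhds_unique hmain ?_
  refine (tendsto_const_nhds (x := (0 : ℂ))).congr' ?_
  filter_upwards [hlt, hν.eventually_ge_atTop 1] with k hk1 hk2
  exact (H4 (ν k) (μ k) hk2 hk1).symm

/-- small `α` -/
lemma small (hη : η ≠ 0) (hK : 0 < K) (H0 : ∀ n, 1 ≤ n → h n 0 = η)
    (H3 : ∀ n m, 1 ≤ n → m + 1 < 4 * n → ‖h n (m + 1) - h n m‖ * ‖h n m‖ ≤ K / n) :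
    ∃ a : ℝ, 0 < a ∧ a ≤ 1 ∧ ∀ n m : ℕ, 1 ≤ n → (m : ℝ) ≤ a * n → ‖η‖ / 2 ≤ ‖h n m‖ := by
  have hη' : 0 < ‖η‖ := norm_pos_iff.mpr hη
  refine ⟨min 1 (‖η‖ ^ 2 / (4 * K)), by positivity, min_le_left _ _, ?_⟩
  intro n m hn hm
  have hn' : (0 : ℝ) < n := by exact_mod_cast hn
  have key : ∀ m : ℕ, (m : ℝ) ≤ min 1 (‖η‖ ^ 2 / (4 * K)) * n →
      ‖h n m - η‖ ≤ (m : ℝ) * (2 * K / (‖η‖ * n)) ∧ ‖η‖ / 2 ≤ ‖h n m‖ := by
    intro m
    have aux : ∀ m : ℕ, (m : ℝ) ≤ min 1 (‖η‖ ^ 2 / (4 * K)) * n →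
        ‖h n m - η‖ ≤ (m : ℝ) * (2 * K / (‖η‖ * n)) → ‖η‖ / 2 ≤ ‖h n m‖ := by
      intro m hm h1
      have h2 : (m : ℝ) ≤ ‖η‖ ^ 2 / (4 * K) * n :=
        hm.trans (mul_le_mul_of_nonneg_right (min_le_right _ _) hn'.le)
      have h3 : (m : ℝ) * (2 * K / (‖η‖ * n)) ≤ ‖η‖ / 2 := by
        calc (m : ℝ) * (2 * K / (‖η‖ * n)) ≤ ‖η‖ ^ 2 / (4 * K) * n * (2 * K / (‖η‖ * n)) := by
              gcongr
          _ = ‖η‖ / 2 := by field_simp; ring
      have h4 : ‖η‖ ≤ ‖h n m‖ + ‖h n m - η‖ := by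
        have := norm_sub_le (h n m) (h n m - η)
        simpa using this
      linarith
    induction m with
    | zero =>
      intro hm
      have : ‖h n 0 - η‖ ≤ ((0 : ℕ) : ℝ) * (2 * K / (‖η‖ * n)) := by simp [H0 n hn]
      exact ⟨this, aux 0 hm this⟩
    | succ m ih =>
      intro hm
      have hm' : (m : ℝ) ≤ min 1 (‖η‖ ^ 2 / (4 * K)) * n := by
        push_cast at hm; linarith
      obtain ⟨i1, i2⟩ := ih hm'
      have hmn : m + 1 < 4 * n := by
        have : ((m + 1 : ℕ) : ℝ) ≤ 1 * n := hm.trans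
          (mul_le_mul_of_nonneg_right (min_le_left _ _) hn'.le)
        have : m + 1 ≤ n := by rw [one_mul] at this; exact_mod_cast this
        omega
      have h1 := H3 n m hn hmn
      have h2 : ‖h n (m + 1) - h n m‖ ≤ 2 * K / (‖η‖ * n) := by
        have : ‖h n (m + 1) - h n m‖ * (‖η‖ / 2) ≤ K / n :=
          (mul_le_mul_of_nonneg_left i2 (norm_nonneg _)).trans h1
        rw [le_div_iff₀ hn'] at this
        rw [le_div_iff₀ (by positivity)]
        nlinarith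
      have h3 : ‖h n (m + 1) - η‖ ≤ ((m + 1 : ℕ) : ℝ) * (2 * K / (‖η‖ * n)) := by
        have : ‖h n (m + 1) - η‖ ≤ ‖h n (m + 1) - h n m‖ + ‖h n m - η‖ := by
          have := norm_add_le (h n (m + 1) - h n m) (h n m - η)
          simpa using this
        push_cast
        linarith
      exact ⟨h3, aux _ hm h3⟩
  exact (key m hm).2

/-- a lower bound away from the end -/
lemma lower (hη : η ≠ 0) (hK : 0 < K) (H0 : ∀ n, 1 ≤ n → h n 0 = η)
    (H3 : ∀ n m, 1 ≤ n → m + 1 < 4 * n → ‖h n (m + 1) - h n m‖ * ‖h n m‖ ≤ K / n)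
    (H4 : ∀ n m, 1 ≤ n → m + 4 < 4 * n → Rec p0 p1 p2 p3 h n m) {d : ℝ} (hd : 0 < d) :
    ∃ c : ℝ, 0 < c ∧ ∃ N : ℕ, ∀ n m : ℕ, N ≤ n → (m : ℝ) ≤ (4 - d) * n → c ≤ ‖h n m‖ := by
  obtain ⟨a, ha0, ha1, ha⟩ := small hη hK H0 H3
  have hη' : 0 < ‖η‖ := norm_pos_iff.mpr hη
  by_contra hcon
  push Not at hcon
  have hcon2 : ∀ k : ℕ, ∃ n m : ℕ, (k + 1) ^ 3 ≤ n ∧ (m : ℝ) ≤ (4 - d) * n ∧
      ‖h n m‖ < 1 / ((k : ℝ) + 1) ∧ ∀ i < m, 1 / ((k : ℝ) + 1) ≤ ‖h n i‖ := by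
    intro k
    obtain ⟨n, m, hn, hm, hlt⟩ := hcon (1 / ((k : ℝ) + 1)) (by positivity) ((k + 1) ^ 3)
    classical
    have hex : ∃ m, ‖h n m‖ < 1 / ((k : ℝ) + 1) := ⟨m, hlt⟩
    refine ⟨n, Nat.find hex, hn, ?_, Nat.find_spec hex, ?_⟩
    · have : Nat.find hex ≤ m := Nat.find_min' hex hlt
      have : (Nat.find hex : ℝ) ≤ m := by exact_mod_cast this
      linarith
    · intro i hi
      have := Nat.find_min hex hi
      linarith
  choose ν μ hν hμ hsm hbig using hcon2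
  have hνinf : Tendsto ν atTop atTop := by
    refine tendsto_atTop_mono (fun k => ?_) tendsto_id
    have : k ≤ (k + 1) ^ 3 := by nlinarith [sq_nonneg k]
    exact this.trans (hν k)
  have hν1 : ∀ k, 1 ≤ ν k := fun k => (Nat.one_le_pow _ _ (by omega)).trans (hν k)
  have hνR : ∀ k, (0 : ℝ) < ν k := fun k => by exact_mod_cast hν1 k
  have hνinfR : Tendsto (fun k => (ν k : ℝ)) atTop atTop := tendsto_natCast_atTop_atTop.comp hνinf
  have hzero : Tendsto (fun k : ℕ => 1 / ((k : ℝ) + 1)) atTop (𝓝 0) :=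
    tendsto_one_div_add_atTop_nhds_zero_nat
  -- `μ` is large
  have hμa : ∀ᶠ k in atTop, a * ν k < μ k := by
    filter_upwards [hzero.eventually (gt_mem_nhds (half_pos hη'))] with k hk
    by_contra hc
    push Not at hc
    have := ha (ν k) (μ k) (hν1 k) hc
    linarith [hsm k]
  have hμ5 : ∀ᶠ k in atTop, 5 ≤ μ k := by
    filter_upwards [hμa, hνinfR.eventually_ge_atTop (5 / a)] with k h1 h2
    have : (5 : ℝ) ≤ a * ν k := by
      rw [div_le_iff₀ ha0] at h2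
      linarith
    have : (5 : ℝ) ≤ μ k := by linarith
    exact_mod_cast this
  have hμ4 : ∀ k, μ k < 4 * ν k := by
    intro k
    have h1 := hμ k
    have h2 := hνR k
    have : (μ k : ℝ) < 4 * ν k := by nlinarith
    exact_mod_cast this
  -- steps
  have hstep : ∀ k i, i + 1 ≤ μ k → ‖h (ν k) (i + 1) - h (ν k) i‖ ≤ K * (1 / ((k : ℝ) + 1)) := by
    intro k i hi
    have h1 := H3 (ν k) i (hν1 k) (by have := hμ4 k; omega)
    have h2 := hbig k i (by omega)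
    have h3 : ‖h (ν k) (i + 1) - h (ν k) i‖ * (1 / ((k : ℝ) + 1)) ≤ K / ν k :=
      (mul_le_mul_of_nonneg_left h2 (norm_nonneg _)).trans h1
    have hk : (0 : ℝ) < (k : ℝ) + 1 := by positivity
    have h4 : ((k : ℝ) + 1) ^ 3 ≤ ν k := by exact_mod_cast hν k
    have h5 : K / ν k ≤ K / ((k : ℝ) + 1) ^ 3 := by gcongr
    have h6 : K / ((k : ℝ) + 1) ^ 3 ≤ K * (1 / ((k : ℝ) + 1)) * (1 / ((k : ℝ) + 1)) := by
      rw [show K * (1 / ((k : ℝ) + 1)) * (1 / ((k : ℝ) + 1)) = K / ((k : ℝ) + 1) ^ 2 by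
        field_simp]
      gcongr
      · linarith
      · norm_num
    exact le_of_mul_le_mul_right (h3.trans (h5.trans h6)) (by positivity)
  have hlimμ : ∀ j : ℕ, j ≤ 4 → Tendsto (fun k => h (ν k) (μ k - j)) atTop (𝓝 0) := by
    intro j
    induction j with
    | zero =>
      intro _
      rw [tendsto_zero_iff_norm_tendsto_zero]
      refine squeeze_zero (fun k => norm_nonneg _) (fun k => ?_) hzero
      simpa using (hsm k).le
    | succ j ih =>
      intro hj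
      have h1 := ih (by omega)
      have h2 : Tendsto (fun k => h (ν k) (μ k - j) - h (ν k) (μ k - (j + 1))) atTop (𝓝 0) := by
        rw [tendsto_zero_iff_norm_tendsto_zero]
        have h3 : Tendsto (fun k : ℕ => K * (1 / ((k : ℝ) + 1))) atTop (𝓝 0) := by
          simpa using hzero.const_mul K
        refine squeeze_zero' (Eventually.of_forall fun k => norm_nonneg _) ?_ h3
        filter_upwards [hμ5] with k hk
        have h4 := hstep k (μ k - (j + 1)) (by omega)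
        rw [show μ k - (j + 1) + 1 = μ k - j by omega] at h4
        exact h4
      have h3 := h1.sub h2
      simpa using h3
  -- a convergent subsequence
  have hcpt : ∀ᶠ k in atTop, (μ k : ℝ) / ν k ∈ Icc a (4 - d) := by
    filter_upwards [hμa] with k hk
    exact ⟨by rw [le_div_iff₀ (hνR k)]; linarith, by rw [div_le_iff₀ (hνR k)]; exact hμ k⟩
  obtain ⟨α, hαm, φ, hφ, hφl⟩ := isCompact_Icc.tendsto_subseq' hcpt.frequently
  have hφt := hφ.tendsto_atTop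
  have hG := lim (α := α) (x := 0) (ν := fun k => ν (φ k)) (μ := fun k => μ (φ k) - 4) H4
    (hνinf.comp hφt) ?_ ?_ ?_ ?_ ?_ ?_
  · unfold G at hG
    have h1 : ((α : ℂ) - 4) * α * α * α = 0 := by simpa using hG
    have h2 : (α - 4) * α * α * α = 0 := by exact_mod_cast h1
    have h3 : 0 < α := ha0.trans_le hαm.1
    have h4 : α - 4 < 0 := by linarith [hαm.2]
    have : (α - 4) * α * α * α < 0 := by
      have : 0 < α * α * α := by positivity
      nlinarith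
    linarith
  · have hinv : Tendsto (fun k => ((ν (φ k) : ℝ))⁻¹) atTop (𝓝 0) :=
      tendsto_inv_atTop_zero.comp (hνinfR.comp hφt)
    have h2 := hφl.sub (hinv.const_mul 4)
    simp only [mul_zero, sub_zero] at h2
    refine h2.congr' ?_
    filter_upwards [hφt.eventually hμ5] with k hk
    rw [Nat.cast_sub (by omega), sub_div]
    simp [div_eq_mul_inv]
  · refine ((hlimμ 3 (by norm_num)).comp hφt).congr' ?_
    filter_upwards [hφt.eventually hμ5] with k hk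
    simp only [Function.comp]
    congr 1
    omega
  · refine ((hlimμ 2 (by norm_num)).comp hφt).congr' ?_
    filter_upwards [hφt.eventually hμ5] with k hk
    simp only [Function.comp]
    congr 1
    omega
  · refine ((hlimμ 1 (by norm_num)).comp hφt).congr' ?_
    filter_upwards [hφt.eventually hμ5] with k hk
    simp only [Function.comp]
    congr 1
    omega
  · refine ((hlimμ 0 (by norm_num)).comp hφt).congr' ?_
    filter_upwards [hφt.eventually hμ5] with k hk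
    simp only [Function.comp]
    congr 1
    omega
  · filter_upwards [hφt.eventually hμ5] with k hk
    have := hμ4 (φ k)
    omega

/-- neighbouring values have the same limit -/
lemma close (hK : 0 < K)
    (H3 : ∀ n m, 1 ≤ n → m + 1 < 4 * n → ‖h n (m + 1) - h n m‖ * ‖h n m‖ ≤ K / n) {d : ℝ}
    (hd : 0 < d) {c : ℝ} (hc : 0 < c) {N : ℕ}
    (hlow : ∀ n m : ℕ, N ≤ n → (m : ℝ) ≤ (4 - d) * n → c ≤ ‖h n m‖)
    {ν κ : ℕ → ℕ} (hν : Tendsto ν atTop atTop) {x : ℂ}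
    (hx : Tendsto (fun k => h (ν k) (κ k)) atTop (𝓝 x)) (hκ : ∀ᶠ k in atTop, 5 ≤ κ k)
    (hκ2 : ∀ᶠ k in atTop, (κ k : ℝ) ≤ (4 - d) * ν k) :
    ∀ j : ℕ, j ≤ 4 → Tendsto (fun k => h (ν k) (κ k - j)) atTop (𝓝 x) := by
  intro j
  induction j with
  | zero => intro _; simpa using hx
  | succ j ih =>
    intro hj
    have h1 := ih (by omega)
    have h2 : Tendsto (fun k => h (ν k) (κ k - j) - h (ν k) (κ k - (j + 1))) atTop (𝓝 0) := by
      rw [tendsto_zero_iff_norm_tendsto_zero]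
      have h3 : Tendsto (fun k : ℕ => K / c * ((ν k : ℝ))⁻¹) atTop (𝓝 0) := by
        have : Tendsto (fun k => ((ν k : ℝ))⁻¹) atTop (𝓝 0) :=
          tendsto_inv_atTop_zero.comp (tendsto_natCast_atTop_atTop.comp hν)
        simpa using this.const_mul (K / c)
      refine squeeze_zero' (Eventually.of_forall fun k => norm_nonneg _) ?_ h3
      filter_upwards [hκ, hκ2, hν.eventually_ge_atTop N, hν.eventually_ge_atTop 1] with k k1 k2 k3 k4
      have hR : (0 : ℝ) < ν k := by exact_mod_cast k4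
      have k5 : κ k < 4 * ν k := by
        have : (κ k : ℝ) < 4 * ν k := by nlinarith
        exact_mod_cast this
      have h4 := H3 (ν k) (κ k - (j + 1)) k4 (by omega)
      have h5 : c ≤ ‖h (ν k) (κ k - (j + 1))‖ := by
        apply hlow _ _ k3
        have : ((κ k - (j + 1) : ℕ) : ℝ) ≤ κ k := by exact_mod_cast Nat.sub_le _ _
        linarith
      rw [show κ k - (j + 1) + 1 = κ k - j by omega] at h4
      have h6 := (mul_le_mul_of_nonneg_left h5 (norm_nonneg _)).trans h4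
      rw [show K / c * ((ν k : ℝ))⁻¹ = (K / ν k) / c by field_simp]
      rw [le_div_iff₀ hc]
      exact h6
    have h3 := h1.sub h2
    simpa using h3

/-- the limit equation for a sequence of indices -/
lemma limG (hK : 0 < K)
    (H3 : ∀ n m, 1 ≤ n → m + 1 < 4 * n → ‖h n (m + 1) - h n m‖ * ‖h n m‖ ≤ K / n)
    (H4 : ∀ n m, 1 ≤ n → m + 4 < 4 * n → Rec p0 p1 p2 p3 h n m) {d : ℝ}
    (hd : 0 < d) {c : ℝ} (hc : 0 < c) {N : ℕ}
    (hlow : ∀ n m : ℕ, N ≤ n → (m : ℝ) ≤ (4 - d) * n → c ≤ ‖h n m‖)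
    {ν κ : ℕ → ℕ} (hν : Tendsto ν atTop atTop) {x : ℂ}
    (hx : Tendsto (fun k => h (ν k) (κ k)) atTop (𝓝 x)) (hκ : ∀ᶠ k in atTop, 5 ≤ κ k)
    (hκ2 : ∀ᶠ k in atTop, (κ k : ℝ) ≤ (4 - d) * ν k) {α : ℝ}
    (hα : Tendsto (fun k => (κ k : ℝ) / ν k) atTop (𝓝 α)) : G p0 p1 p2 p3 α x = 0 := by
  have hcl := close hK H3 hd hc hlow hν hx hκ hκ2
  refine lim (ν := ν) (μ := fun k => κ k - 4) H4 hν ?_ ?_ ?_ ?_ ?_ ?_
  · have hinv : Tendsto (fun k => ((ν k : ℝ))⁻¹) atTop (𝓝 0) :=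
      tendsto_inv_atTop_zero.comp (tendsto_natCast_atTop_atTop.comp hν)
    have h2 := hα.sub (hinv.const_mul 4)
    simp only [mul_zero, sub_zero] at h2
    refine h2.congr' ?_
    filter_upwards [hκ] with k hk
    rw [Nat.cast_sub (by omega), sub_div]
    simp [div_eq_mul_inv]
  · refine (hcl 3 (by norm_num)).congr' ?_
    filter_upwards [hκ] with k hk
    congr 1
    omega
  · refine (hcl 2 (by norm_num)).congr' ?_
    filter_upwards [hκ] with k hk
    congr 1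
    omega
  · refine (hcl 1 (by norm_num)).congr' ?_
    filter_upwards [hκ] with k hk
    congr 1
    omega
  · refine (hcl 0 (by norm_num)).congr' ?_
    filter_upwards [hκ] with k hk
    congr 1
    omega
  · filter_upwards [hκ, hκ2, hν.eventually_ge_atTop 1] with k k1 k2 k4
    have hR : (0 : ℝ) < ν k := by exact_mod_cast k4
    have k5 : κ k < 4 * ν k := by
      have : (κ k : ℝ) < 4 * ν k := by nlinarith
      exact_mod_cast this
    omega

theorem absurd_path (hη : η ≠ 0) (hK : 0 < K) (hr : 0 < r) (H0 : ∀ n, 1 ≤ n → h n 0 = η)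
    (H2 : ∀ n m, 1 ≤ n → m ≤ 4 * n → ‖h n m‖ ≤ (4 - (m : ℝ) / n) / r)
    (H3 : ∀ n m, 1 ≤ n → m + 1 < 4 * n → ‖h n (m + 1) - h n m‖ * ‖h n m‖ ≤ K / n)
    (H4 : ∀ n m, 1 ≤ n → m + 4 < 4 * n → Rec p0 p1 p2 p3 h n m)
    {A : Set ℂ} (hA : IsOpen A) (hz0 : z0 ∈ A)
    (hbar : ∀ α : ℝ, 0 < α → α < 4 → ∀ x : ℂ, x ≠ 0 → G p0 p1 p2 p3 α x = 0 →
      z0 + α / x ∈ closure A → z0 + α / x ∈ A)
    {d : ℝ} (hd : 0 < d) (hd1 : d < 1)
    (hend : ∀ x : ℂ, x ≠ 0 → ‖x‖ ≤ d / r → G p0 p1 p2 p3 (4 - d) x = 0 →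
      z0 + ((4 - d : ℝ) : ℂ) / x ∉ closure A) : False := by
  obtain ⟨a, ha0, ha1, ha⟩ := small hη hK H0 H3
  obtain ⟨c, hc, N, hlow⟩ := lower hη hK H0 H3 H4 hd
  have hη' : 0 < ‖η‖ := norm_pos_iff.mpr hη
  obtain ⟨ε, hε, hεA⟩ := Metric.isOpen_iff.mp hA z0 hz0
  set w : ℕ → ℕ → ℂ := fun n m => z0 + ((m : ℂ) / n) / h n m with hw
  -- small indices stay in `A`
  obtain ⟨b, hb0, hb1, hb⟩ : ∃ b : ℝ, 0 < b ∧ b ≤ 1 ∧ ∀ n m : ℕ, 1 ≤ n → (m : ℝ) ≤ b * n →
      w n m ∈ A := by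
    refine ⟨min a (ε * ‖η‖ / 4), by positivity, (min_le_left _ _).trans ha1, ?_⟩
    intro n m hn hm
    have hR : (0 : ℝ) < n := by exact_mod_cast hn
    have h1 : ‖η‖ / 2 ≤ ‖h n m‖ :=
      ha n m hn (hm.trans (mul_le_mul_of_nonneg_right (min_le_left _ _) hR.le))
    have h2 : (m : ℝ) / n ≤ ε * ‖η‖ / 4 := by
      rw [div_le_iff₀ hR]
      exact hm.trans (mul_le_mul_of_nonneg_right (min_le_right _ _) hR.le)
    apply hεA
    rw [Metric.mem_ball, hw, dist_eq_norm]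
    simp only [add_sub_cancel_left]
    rw [norm_div, norm_div, Complex.norm_natCast, Complex.norm_natCast]
    have h3 : 0 < ‖h n m‖ := by linarith
    rw [div_lt_iff₀ h3]
    nlinarith
  -- the last index
  set M : ℕ → ℕ := fun n => ⌊(4 - d) * (n : ℝ)⌋₊ with hM
  have hMle : ∀ n, (M n : ℝ) ≤ (4 - d) * n := fun n =>
    Nat.floor_le (mul_nonneg (by linarith) (Nat.cast_nonneg n))
  have hMlim : Tendsto (fun n : ℕ => (M n : ℝ) / n) atTop (𝓝 (4 - d)) :=
    (tendsto_nat_floor_mul_div_atTop (by linarith)).comp tendsto_natCast_atTop_atTop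
  have hMlt : ∀ n, 1 ≤ n → M n < 4 * n := by
    intro n hn
    have hR : (0 : ℝ) < n := by exact_mod_cast hn
    have : (M n : ℝ) < 4 * n := by nlinarith [hMle n]
    exact_mod_cast this
  have hbd : ∀ n m, 1 ≤ n → m ≤ 4 * n → h n m ∈ Metric.closedBall (0 : ℂ) (4 / r) := by
    intro n m hn hm
    rw [mem_closedBall_zero_iff]
    refine (H2 n m hn hm).trans ?_
    gcongr
    have : (0 : ℝ) ≤ (m : ℝ) / n := by positivity
    linarith
  obtain ⟨x, -, φ, hφ, hφl⟩ := (isCompact_closedBall (0 : ℂ) (4 / r)).tendsto_subseq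
    (x := fun n => h (n + 1) (M (n + 1)))
    (fun n => hbd _ _ (by omega) (hMlt _ (by omega)).le)
  set ν : ℕ → ℕ := fun k => φ k + 1 with hνd
  have hν : Tendsto ν atTop atTop :=
    tendsto_atTop_mono (fun k => Nat.le_succ _) hφ.tendsto_atTop
  have hν1 : ∀ k, 1 ≤ ν k := fun k => by simp [hνd]
  have hνR : ∀ k, (0 : ℝ) < ν k := fun k => by exact_mod_cast hν1 k
  have hx : Tendsto (fun k => h (ν k) (M (ν k))) atTop (𝓝 x) := hφl
  have hxc : c ≤ ‖x‖ := by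
    refine ge_of_tendsto hx.norm ?_
    filter_upwards [hν.eventually_ge_atTop N] with k hk
    exact hlow _ _ hk (hMle _)
  have hx0 : x ≠ 0 := norm_pos_iff.mp (hc.trans_le hxc)
  have hxd : ‖x‖ ≤ d / r := by
    have h1 : Tendsto (fun k => (4 - (M (ν k) : ℝ) / ν k) / r) atTop (𝓝 ((4 - (4 - d)) / r)) :=
      ((hMlim.comp hν).const_sub 4).div_const r
    rw [sub_sub_cancel] at h1
    refine le_of_tendsto_of_tendsto hx.norm h1 (Eventually.of_forall fun k => ?_)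
    exact H2 _ _ (hν1 k) (hMlt _ (hν1 k)).le
  have hM5 : ∀ᶠ k in atTop, 5 ≤ M (ν k) := by
    have h1 : Tendsto (fun k => (4 - d) * (ν k : ℝ)) atTop atTop :=
      (tendsto_natCast_atTop_atTop.comp hν).const_mul_atTop (by linarith)
    filter_upwards [h1.eventually_ge_atTop 5] with k hk
    exact Nat.le_floor (by exact_mod_cast hk)
  have hGx : G p0 p1 p2 p3 (4 - d) x = 0 :=
    limG hK H3 H4 hd hc hlow hν hx hM5 (Eventually.of_forall fun k => hMle _) (hMlim.comp hν)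
  have hout := hend x hx0 hxd hGx
  -- limits of `w`
  have hwlim : ∀ (ν' κ : ℕ → ℕ) (α : ℝ) (y : ℂ), y ≠ 0 →
      Tendsto (fun k => (κ k : ℝ) / ν' k) atTop (𝓝 α) →
      Tendsto (fun k => h (ν' k) (κ k)) atTop (𝓝 y) →
      Tendsto (fun k => w (ν' k) (κ k)) atTop (𝓝 (z0 + α / y)) := by
    intro ν' κ α y hy h1 h2
    have h3 : Tendsto (fun k => ((κ k : ℂ) / ν' k)) atTop (𝓝 (α : ℂ)) := by
      refine ((Complex.continuous_ofReal.tendsto α).comp h1).congr (fun k => ?_)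
      simp
    exact (h3.div h2 hy).const_add z0
  have hwM := hwlim ν (fun k => M (ν k)) (4 - d) x hx0 (hMlim.comp hν) hx
  have hev : ∀ᶠ k in atTop, w (ν k) (M (ν k)) ∉ A := by
    filter_upwards [hwM.eventually (isClosed_closure.isOpen_compl.mem_nhds hout)] with k hk
    exact fun hh => hk (subset_closure hh)
  -- first exit
  obtain ⟨k0, hk0⟩ := eventually_atTop.mp hev
  have hexit : ∀ k, ∃ m, m ≤ M (ν (k + k0)) ∧ w (ν (k + k0)) m ∉ A ∧
      ∀ i < m, w (ν (k + k0)) i ∈ A := by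
    intro k
    classical
    have hex : ∃ m, w (ν (k + k0)) m ∉ A := ⟨_, hk0 (k + k0) (by omega)⟩
    refine ⟨Nat.find hex, Nat.find_min' hex (hk0 (k + k0) (by omega)), Nat.find_spec hex, ?_⟩
    intro i hi
    have := Nat.find_min hex hi
    push Not at this
    exact this
  choose μ hμM hμA hμin using hexit
  set ν2 : ℕ → ℕ := fun k => ν (k + k0) with hν2d
  have hν2 : Tendsto ν2 atTop atTop := hν.comp (tendsto_add_atTop_nat k0)
  have hν21 : ∀ k, 1 ≤ ν2 k := fun k => hν1 _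
  have hν2R : ∀ k, (0 : ℝ) < ν2 k := fun k => hνR _
  have hμb : ∀ k, b * ν2 k < μ k := by
    intro k
    by_contra hcon
    push Not at hcon
    exact hμA k (hb _ _ (hν21 k) hcon)
  have hμle : ∀ k, (μ k : ℝ) ≤ (4 - d) * ν2 k := by
    intro k
    have : (μ k : ℝ) ≤ M (ν2 k) := by exact_mod_cast hμM k
    exact this.trans (hMle _)
  have hpair : ∀ k, (((μ k : ℝ) / ν2 k), h (ν2 k) (μ k)) ∈
      Icc b (4 - d) ×ˢ Metric.closedBall (0 : ℂ) (4 / r) := by
    intro k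
    refine ⟨⟨?_, ?_⟩, ?_⟩
    · rw [le_div_iff₀ (hν2R k)]; exact (hμb k).le
    · rw [div_le_iff₀ (hν2R k)]; exact hμle k
    · exact hbd _ _ (hν21 k) ((hμM k).trans (hMlt _ (hν21 k)).le)
  obtain ⟨⟨α, y⟩, hαy, ψ, hψ, hψl⟩ :=
    (isCompact_Icc.prod (isCompact_closedBall (0 : ℂ) (4 / r))).tendsto_subseq hpair
  rw [nhds_prod_eq] at hψl
  have hα : Tendsto (fun k => (μ (ψ k) : ℝ) / ν2 (ψ k)) atTop (𝓝 α) := hψl.fst
  have hy : Tendsto (fun k => h (ν2 (ψ k)) (μ (ψ k))) atTop (𝓝 y) := hψl.snd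
  have hν3 : Tendsto (fun k => ν2 (ψ k)) atTop atTop := hν2.comp hψ.tendsto_atTop
  have hα1 : b ≤ α := hαy.1.1
  have hα2 : α ≤ 4 - d := hαy.1.2
  have hyc : c ≤ ‖y‖ := by
    refine ge_of_tendsto hy.norm ?_
    filter_upwards [hν3.eventually_ge_atTop N] with k hk
    exact hlow _ _ hk (hμle _)
  have hy0 : y ≠ 0 := norm_pos_iff.mp (hc.trans_le hyc)
  have hμ5 : ∀ᶠ k in atTop, 5 ≤ μ (ψ k) := by
    have h1 : Tendsto (fun k => b * (ν2 (ψ k) : ℝ)) atTop atTop :=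
      (tendsto_natCast_atTop_atTop.comp hν3).const_mul_atTop hb0
    filter_upwards [h1.eventually_ge_atTop 5] with k hk
    have := hμb (ψ k)
    have : (5 : ℝ) ≤ μ (ψ k) := by linarith
    exact_mod_cast this
  have hG2 : G p0 p1 p2 p3 α y = 0 :=
    limG (κ := fun k => μ (ψ k)) hK H3 H4 hd hc hlow hν3 hy hμ5
      (Eventually.of_forall fun k => hμle _) hα
  have hcl := close (κ := fun k => μ (ψ k)) hK H3 hd hc hlow hν3 hy hμ5
    (Eventually.of_forall fun k => hμle _) 1 (by norm_num)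
  have hw1 := hwlim (fun k => ν2 (ψ k)) (fun k => μ (ψ k)) α y hy0 hα hy
  have hα' : Tendsto (fun k => ((μ (ψ k) - 1 : ℕ) : ℝ) / ν2 (ψ k)) atTop (𝓝 α) := by
    have hinv : Tendsto (fun k => ((ν2 (ψ k) : ℝ))⁻¹) atTop (𝓝 0) :=
      tendsto_inv_atTop_zero.comp (tendsto_natCast_atTop_atTop.comp hν3)
    have h2 := hα.sub hinv
    simp only [sub_zero] at h2
    refine h2.congr' ?_
    filter_upwards [hμ5] with k hk
    rw [Nat.cast_sub (by omega), sub_div]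
    simp
  have hw2 := hwlim (fun k => ν2 (ψ k)) (fun k => μ (ψ k) - 1) α y hy0 hα' hcl
  have hmem : z0 + α / y ∈ closure A := by
    refine mem_closure_of_tendsto hw2 ?_
    filter_upwards [hμ5] with k hk
    exact hμin (ψ k) _ (by omega)
  have hnot : z0 + α / y ∉ A := by
    have : z0 + α / y ∈ Aᶜ :=
      hA.isClosed_compl.mem_of_tendsto hw1 (Eventually.of_forall fun k => hμA (ψ k))
    exact this
  exact hnot (hbar α (hb0.trans_le hα1) (by linarith) y hy0 hG2 hmem)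

end Pool.Agent.R515.SH
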