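import Pool.Agent.R515.SH.Lim

/-!
The quartic `X ^ 4 - 14 X ^ 2 + 24 X + 4224` and the derivatives of its powers.
-/

set_option autoImplicit false

namespace Pool.Agent.R515.SH

open Filter Topology Set Polynomial

/-- the quartic -/
noncomputable def PP : ℂ[X] := X ^ 4 - C 14 * X ^ 2 + C 24 * X + C 4224

lemma PP_natDegree : PP.natDegree = 4 := by unfold PP; compute_degree!
lemma PP_monic : PP.Monic := by unfold PP; monicity!

/-- the derivatives of the powers -/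
noncomputable def Q (n m : ℕ) : ℂ[X] := derivative^[m] (PP ^ n)

lemma PPn_natDegree (n : ℕ) : (PP ^ n).natDegree = 4 * n := by
  rw [natDegree_pow, PP_natDegree]; ring

lemma Q_natDegree_le (n m : ℕ) : (Q n m).natDegree ≤ 4 * n - m := by
  rw [← PPn_natDegree]
  exact natDegree_iterate_derivative _ _

lemma Q_ne_zero {n m : ℕ} (hm : m ≤ 4 * n) : Q n m ≠ 0 := by
  intro h0
  have h1 := congrArg (fun p => p.coeff (4 * n - m)) h0
  simp only [Q, coeff_iterate_derivative, coeff_zero] at h1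
  rw [Nat.sub_add_cancel hm] at h1
  have h2 : (PP ^ n).coeff (4 * n) = 1 := by
    have := (PP_monic.pow n).coeff_natDegree
    rwa [PPn_natDegree] at this
  rw [h2, nsmul_one] at h1
  have h3 : (4 * n).descFactorial m = 0 := by exact_mod_cast h1
  rw [Nat.descFactorial_eq_zero_iff_lt] at h3
  omega

lemma Q_succ (n m : ℕ) : Q n (m + 1) = derivative (Q n m) := by
  unfold Q; rw [Function.iterate_succ_apply']

/-- normalised logarithmic derivative -/
noncomputable def hh (n m : ℕ) (z : ℂ) : ℂ := (Q n (m + 1)).eval z / (n * (Q n m).eval z)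

variable {z0 : ℂ} {r : ℝ}

lemma hh_bound (hr : 0 < r)
    (hno : ∀ n m, 1 ≤ n → m ≤ 4 * n → ∀ z, dist z z0 < 2 * r → (Q n m).eval z ≠ 0)
    {n m : ℕ} (hn : 1 ≤ n) (hm : m ≤ 4 * n) {z : ℂ} (hz : dist z z0 ≤ r) :
    ‖hh n m z‖ ≤ (4 - (m : ℝ) / n) / r := by
  have hR : (0 : ℝ) < n := by exact_mod_cast hn
  have hQz : (Q n m).eval z ≠ 0 := hno n m hn hm z (by linarith)
  have h1 := (IsAlgClosed.splits (Q n m)).eval_derivative_div_eval_of_ne_zero hQz
  have h2 : hh n m z = ((Q n m).roots.map fun w ↦ 1 / (z - w)).sum / n := by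
    rw [← h1, ← Q_succ]
    unfold hh
    rw [div_div, mul_comm ((n : ℂ))]
  have h3 : ‖((Q n m).roots.map fun w ↦ 1 / (z - w)).sum‖ ≤ (4 * n - m : ℕ) * (1 / r) := by
    refine (norm_multiset_sum_le _).trans ?_
    rw [Multiset.map_map]
    have h4 : (Multiset.map (norm ∘ fun w ↦ 1 / (z - w)) (Q n m).roots).sum ≤
        Multiset.card (Multiset.map (norm ∘ fun w ↦ 1 / (z - w)) (Q n m).roots) • (1 / r) := by
      apply Multiset.sum_le_card_nsmul
      intro x hx
      rw [Multiset.mem_map] at hx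
      obtain ⟨w, hw, rfl⟩ := hx
      have hwr : (Q n m).eval w = 0 := (mem_roots'.mp hw).2
      have hwd : 2 * r ≤ dist w z0 := by
        by_contra hc
        exact hno n m hn hm w (not_le.mp hc) hwr
      have : r ≤ ‖z - w‖ := by
        rw [← dist_eq_norm]
        have := dist_triangle w z z0
        rw [dist_comm w z] at this
        linarith
      simp only [Function.comp, norm_div, norm_one]
      exact one_div_le_one_div_of_le hr this
    refine h4.trans ?_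
    rw [Multiset.card_map, nsmul_eq_mul]
    have h5 : Multiset.card (Q n m).roots ≤ 4 * n - m := (card_roots' _).trans (Q_natDegree_le n m)
    have : ((Multiset.card (Q n m).roots : ℕ) : ℝ) ≤ ((4 * n - m : ℕ) : ℝ) := by exact_mod_cast h5
    gcongr
  rw [h2, norm_div, Complex.norm_natCast, div_le_iff₀ hR]
  refine h3.trans (le_of_eq ?_)
  rw [Nat.cast_sub hm]
  push_cast
  field_simp

lemma hh_deriv {n m : ℕ} (hn : 1 ≤ n) {z : ℂ} (h0 : (Q n m).eval z ≠ 0)
    (h1 : (Q n (m + 1)).eval z ≠ 0) :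
    HasDerivAt (hh n m) (n * hh n m z * (hh n (m + 1) z - hh n m z)) z := by
  have hR : (n : ℂ) ≠ 0 := by
    have : n ≠ 0 := by omega
    exact_mod_cast this
  have e1 := (Q n (m + 1)).hasDerivAt z
  have e2 := (Q n m).hasDerivAt z
  rw [← Q_succ] at e1 e2
  have e3 := e1.div (e2.const_mul (n : ℂ)) (mul_ne_zero hR h0)
  refine e3.congr_deriv ?_
  unfold hh
  field_simp

lemma hh_step (hr : 0 < r)
    (hno : ∀ n m, 1 ≤ n → m ≤ 4 * n → ∀ z, dist z z0 < 2 * r → (Q n m).eval z ≠ 0)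
    {n m : ℕ} (hn : 1 ≤ n) (hm : m + 1 ≤ 4 * n) :
    ‖hh n (m + 1) z0 - hh n m z0‖ * ‖hh n m z0‖ ≤ (4 / r ^ 2) / n := by
  have hR : (0 : ℝ) < n := by exact_mod_cast hn
  have h1 : ‖deriv (hh n m) z0‖ ≤ (4 / r) / r := by
    apply Complex.norm_deriv_le_of_forall_mem_sphere_norm_le hr
    · apply DifferentiableOn.diffContOnCl_ball (U := Metric.ball z0 (2 * r))
      · intro z hz
        rw [Metric.mem_ball] at hz
        exact (hh_deriv hn (hno n m hn (by omega) z hz)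
          (hno n (m + 1) hn hm z hz)).differentiableAt.differentiableWithinAt
      · exact Metric.closedBall_subset_ball (by linarith)
    · intro z hz
      rw [Metric.mem_sphere] at hz
      refine (hh_bound hr hno hn (by omega : m ≤ 4 * n) hz.le).trans ?_
      gcongr
      have : (0 : ℝ) ≤ (m : ℝ) / n := by positivity
      linarith
  have hz0 : dist z0 z0 < 2 * r := by rw [dist_self]; linarith
  rw [(hh_deriv hn (hno n m hn (by omega) z0 hz0) (hno n (m + 1) hn hm z0 hz0)).deriv, norm_mul,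
    norm_mul, Complex.norm_natCast] at h1
  rw [le_div_iff₀ hR]
  calc ‖hh n (m + 1) z0 - hh n m z0‖ * ‖hh n m z0‖ * n =
      n * ‖hh n m z0‖ * ‖hh n (m + 1) z0 - hh n m z0‖ := by ring
    _ ≤ (4 / r) / r := h1
    _ = 4 / r ^ 2 := by field_simp

/-- the coefficients of the Taylor expansion -/
noncomputable def c0 (z0 : ℂ) : ℂ := z0 ^ 4 - 14 * z0 ^ 2 + 24 * z0 + 4224
noncomputable def c1 (z0 : ℂ) : ℂ := 4 * z0 ^ 3 - 28 * z0 + 24
noncomputable def c2 (z0 : ℂ) : ℂ := 6 * z0 ^ 2 - 14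
noncomputable def c3 (z0 : ℂ) : ℂ := 4 * z0

lemma taylor_PP (z0 : ℂ) : taylor z0 PP =
    X ^ 4 + C (c3 z0) * X ^ 3 + C (c2 z0) * X ^ 2 + C (c1 z0) * X + C (c0 z0) := by
  rw [taylor_apply]
  unfold PP c0 c1 c2 c3
  simp only [sub_comp, add_comp, mul_comp, X_comp, C_comp, X_pow_comp, map_add, map_sub, map_mul,
    map_pow]
  have e1 : (C (4 : ℂ) : ℂ[X]) = 4 := map_ofNat (C : ℂ →+* ℂ[X]) 4
  have e2 : (C (28 : ℂ) : ℂ[X]) = 28 := map_ofNat (C : ℂ →+* ℂ[X]) 28
  have e3 : (C (24 : ℂ) : ℂ[X]) = 24 := map_ofNat (C : ℂ →+* ℂ[X]) 24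
  have e4 : (C (6 : ℂ) : ℂ[X]) = 6 := map_ofNat (C : ℂ →+* ℂ[X]) 6
  have e5 : (C (14 : ℂ) : ℂ[X]) = 14 := map_ofNat (C : ℂ →+* ℂ[X]) 14
  rw [e1, e2, e3, e4, e5]
  ring

/-- Taylor coefficients of the powers -/
noncomputable def q (z0 : ℂ) (n m : ℕ) : ℂ := ((taylor z0 PP) ^ n).coeff m

lemma Q_eval (z0 : ℂ) (n m : ℕ) : (Q n m).eval z0 = (m.factorial : ℂ) * q z0 n m := by
  unfold Q q
  rw [← taylor_pow, taylor_coeff, ← factorial_smul_hasseDeriv]
  simp

lemma q_rec (z0 : ℂ) {n : ℕ} (hn : 1 ≤ n) (m : ℕ) :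
    c0 z0 * (((m : ℂ) + 5) * q z0 n (m + 5)) + c1 z0 * (((m : ℂ) + 4 - n) * q z0 n (m + 4)) +
      c2 z0 * (((m : ℂ) + 3 - 2 * n) * q z0 n (m + 3)) +
      c3 z0 * (((m : ℂ) + 2 - 3 * n) * q z0 n (m + 2)) +
      ((m : ℂ) + 1 - 4 * n) * q z0 n (m + 1) = 0 := by
  set T := taylor z0 PP with hT
  have h1 : T * derivative (T ^ n) = C (n : ℂ) * (derivative T * T ^ n) := by
    rw [derivative_pow]
    obtain ⟨k, rfl⟩ : ∃ k, n = k + 1 := ⟨n - 1, by omega⟩
    simp only [Nat.add_sub_cancel]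
    ring
  have h2 := congrArg (fun p => p.coeff (m + 4)) h1
  simp only [coeff_C_mul] at h2
  have hd : derivative T = C 4 * X ^ 3 + C (3 * c3 z0) * X ^ 2 + C (2 * c2 z0) * X + C (c1 z0) := by
    rw [hT, taylor_PP]
    simp only [derivative_add, derivative_mul, derivative_C, derivative_X_pow, derivative_X,
      zero_mul, zero_add, add_zero, mul_one, map_mul]
    have e3 : (C (3 : ℂ) : ℂ[X]) = 3 := map_ofNat (C : ℂ →+* ℂ[X]) 3
    have e2 : (C (2 : ℂ) : ℂ[X]) = 2 := map_ofNat (C : ℂ →+* ℂ[X]) 2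
    have e4 : (C (4 : ℂ) : ℂ[X]) = 4 := map_ofNat (C : ℂ →+* ℂ[X]) 4
    rw [e3, e2, e4]
    have f4 : (C ((4 : ℕ) : ℂ) : ℂ[X]) = 4 := by push_cast; exact e4
    have f3 : (C ((3 : ℕ) : ℂ) : ℂ[X]) = 3 := by push_cast; exact e3
    have f2 : (C ((2 : ℕ) : ℂ) : ℂ[X]) = 2 := by push_cast; exact e2
    rw [f4, f3, f2]
    ring
  have hL : (T * derivative (T ^ n)).coeff (m + 4) =
      (derivative (T ^ n)).coeff m + c3 z0 * (derivative (T ^ n)).coeff (m + 1) +
      c2 z0 * (derivative (T ^ n)).coeff (m + 2) + c1 z0 * (derivative (T ^ n)).coeff (m + 3) +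
      c0 z0 * (derivative (T ^ n)).coeff (m + 4) := by
    generalize derivative (T ^ n) = S
    rw [hT, taylor_PP]
    simp only [add_mul, mul_assoc, coeff_add, coeff_C_mul]
    have x4 : (X ^ 4 * S).coeff (m + 4) = S.coeff m := coeff_X_pow_mul S 4 m
    have x3 : (X ^ 3 * S).coeff (m + 4) = S.coeff (m + 1) := coeff_X_pow_mul S 3 (m + 1)
    have x2 : (X ^ 2 * S).coeff (m + 4) = S.coeff (m + 2) := coeff_X_pow_mul S 2 (m + 2)
    have x1 : (X * S).coeff (m + 4) = S.coeff (m + 3) := coeff_X_mul S (m + 3)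
    rw [x4, x3, x2, x1]
  have hRt : (derivative T * T ^ n).coeff (m + 4) = 4 * (T ^ n).coeff (m + 1) +
      3 * c3 z0 * (T ^ n).coeff (m + 2) + 2 * c2 z0 * (T ^ n).coeff (m + 3) +
      c1 z0 * (T ^ n).coeff (m + 4) := by
    rw [hd]
    generalize T ^ n = S
    simp only [add_mul, mul_assoc, coeff_add, coeff_C_mul]
    have x3 : (X ^ 3 * S).coeff (m + 4) = S.coeff (m + 1) := coeff_X_pow_mul S 3 (m + 1)
    have x2 : (X ^ 2 * S).coeff (m + 4) = S.coeff (m + 2) := coeff_X_pow_mul S 2 (m + 2)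
    have x1 : (X * S).coeff (m + 4) = S.coeff (m + 3) := coeff_X_mul S (m + 3)
    rw [x3, x2, x1]
  rw [hL, hRt] at h2
  simp only [coeff_derivative] at h2
  unfold q
  rw [← hT]
  push_cast at h2
  rw [show m + 1 + 1 = m + 2 from rfl, show m + 2 + 1 = m + 3 from rfl,
    show m + 3 + 1 = m + 4 from rfl, show m + 4 + 1 = m + 5 from rfl] at h2
  linear_combination h2

lemma hh_q {n m : ℕ} : hh n m z0 = ((m : ℂ) + 1) * q z0 n (m + 1) / (n * q z0 n m) := by
  unfold hh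
  rw [Q_eval, Q_eval, Nat.factorial_succ]
  push_cast
  have : (m.factorial : ℂ) ≠ 0 := by exact_mod_cast m.factorial_ne_zero
  rw [show ((m : ℂ) + 1) * (m.factorial : ℂ) * q z0 n (m + 1) =
    (m.factorial : ℂ) * (((m : ℂ) + 1) * q z0 n (m + 1)) by ring,
    show (n : ℂ) * ((m.factorial : ℂ) * q z0 n m) = (m.factorial : ℂ) * (n * q z0 n m) by ring,
    mul_div_mul_left _ _ this]

lemma hh_rec {n m : ℕ} (hn : 1 ≤ n)
    (hne : ∀ k, k ≤ 4 * n → (Q n k).eval z0 ≠ 0) (hm : m + 4 < 4 * n) :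
    Rec (c0 z0) (c1 z0) (c2 z0) (c3 z0) (fun n m => hh n m z0) n m := by
  have hq : ∀ k, k ≤ 4 * n → q z0 n k ≠ 0 := by
    intro k hk h0
    apply hne k hk
    rw [Q_eval, h0, mul_zero]
  have hN : (n : ℂ) ≠ 0 := by
    have : n ≠ 0 := by omega
    exact_mod_cast this
  have k1 := hq (m + 1) (by omega)
  have k2 := hq (m + 2) (by omega)
  have k3 := hq (m + 3) (by omega)
  have k4 := hq (m + 4) (by omega)
  have h := q_rec z0 hn m
  unfold Rec
  simp only [hh_q]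
  rw [show m + 1 + 1 = m + 2 from rfl, show m + 2 + 1 = m + 3 from rfl,
    show m + 3 + 1 = m + 4 from rfl, show m + 4 + 1 = m + 5 from rfl]
  push_cast
  generalize q z0 n (m + 1) = q1 at *
  generalize q z0 n (m + 2) = q2 at *
  generalize q z0 n (m + 3) = q3 at *
  generalize q z0 n (m + 4) = q4 at *
  generalize q z0 n (m + 5) = q5 at *
  generalize c0 z0 = a0 at *
  generalize c1 z0 = a1 at *
  generalize c2 z0 = a2 at *
  generalize c3 z0 = a3 at *
  field_simp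
  linear_combination ((m : ℂ) + 2) * ((m : ℂ) + 3) * ((m : ℂ) + 4) * h

end Pool.Agent.R515.SH
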